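import Mathlib
import Pool.Agent.MP_d64882_nt.Defs
import Pool.Agent.MP_d64882_nt.Main

open Pool.Agent.MP_d64882_nt

namespace Pool.Agent.Results.MP_d64882_nt.SplitAlways

theorem result (K : IntermediateField ℚ (AlgebraicClosure ℚ)) (hK : FiniteDimensional ℚ K)
    (h : ∃ F : IntermediateField ℚ (AlgebraicClosure ℚ), FiniteDimensional ℚ F ∧ FakeSub K F) :
    ∃ F : IntermediateField ℚ (AlgebraicClosure ℚ), FiniteDimensional ℚ F ∧ FakeSub K F ∧
      SplitsOver (IntermediateField.normalClosure ℚ K (AlgebraicClosure ℚ))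
        (IntermediateField.normalClosure ℚ K (AlgebraicClosure ℚ) ⊔
          IntermediateField.normalClosure ℚ F (AlgebraicClosure ℚ)) le_sup_left := by
  obtain ⟨F, hF, h1, h2⟩ := h
  have : IsAlgClosure ℚ (AlgebraicClosure ℚ) := AlgebraicClosure.instIsAlgClosure ℚ
  have : Normal ℚ (AlgebraicClosure ℚ) := IsAlgClosure.normal _ _
  obtain ⟨M, hM1, hM2, l1, l2, l, hl, ρ, hρ⟩ :=
    exists_big K F (Module.finrank ℚ F + Module.finrank ℚ K + 5)
  have : NumberField K := NumberField.of_module_finite ℚ K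
  have : NumberField F := NumberField.of_module_finite ℚ F
  have : NumberField M := NumberField.of_module_finite ℚ M
  have : IsGalois ℚ M := ⟨⟩
  have e1 : Nat.card (Emb K M) = Module.finrank ℚ K := (incl l1).card
  have e2 : Nat.card (Emb F M) = Module.finrank ℚ F := (incl l2).card
  obtain ⟨U, u1, u2, H, u3, u4⟩ := core (X := Emb K M) (incl l2) (incl l2).exists_smul ρ hρ
    (by omega) (by omega) (by omega) ((locallySub_iff l1 l2).1 h1) ((notConj_iff l1 l2).1 h2)
  let F' := IntermediateField.lift (IntermediateField.fixedField U)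
  have l3 : F' ≤ M := IntermediateField.lift_le _
  have hF' : FiniteDimensional ℚ F' :=
    FiniteDimensional.of_injective (IntermediateField.inclusion l3).toLinearMap
      (IntermediateField.inclusion_injective l3)
  have : NumberField F' := NumberField.of_module_finite ℚ F'
  have hU : ∀ g : M ≃ₐ[ℚ] M, g • incl l3 = incl l3 ↔ g ∈ U := fun g => by
    rw [← IntermediateField.fixingSubgroup_fixedField U, IntermediateField.mem_fixingSubgroup_iff]
    exact ⟨fun h x hx => congrArg (fun τ : Emb F' M => τ.hom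
        ⟨x.1, (IntermediateField.mem_lift x).2 hx⟩) h,
      fun h => Emb.ext fun x => h _ ((IntermediateField.mem_lift ⟨x.1, l3 x.2⟩).1 x.2)⟩
  refine ⟨F', hF', ⟨(locallySub_iff l1 l3).2 fun σ =>
    (u1 σ).of_quotient (incl l3) (incl l3).exists_smul U hU, (notConj_iff l1 l3).2 fun x => ?_⟩,
    splits_of l1 l3 H u3 fun a ha hx g => (hU _).2 (u4 a ha hx g)⟩
  obtain ⟨u, hu, hx⟩ := u2 x
  exact ⟨u, (hU u).2 hu, hx⟩

end Pool.Agent.Results.MP_d64882_nt.SplitAlways
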